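import Pool.Agent.helper68.FY.Spec

/-!
# Project fy, row PHI: small forms mod p
-/

set_option autoImplicit false

namespace Pool.Agent.helper68.FY

open Finset

theorem PHI_spec (p : ℕ) (x : ZMod p × ZMod p) (h : Phi p x ≠ 0) :
    smf p (Phi p x) ∧ va p (Phi p x) x.1 ∧ va p (Phi p x) x.2 := by
  unfold Phi at h ⊢
  by_cases h1 : ∃ ψ : V3, smf p ψ ∧ va p ψ x.1 ∧ va p ψ x.2
  · simp only [dif_pos h1] at h ⊢
    exact Classical.choose_spec h1
  · simp only [dif_neg h1] at h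
    exact absurd rfl h

theorem PHI_small (p : ℕ) (hp : 0 < p) (ψ : V3) (h : smf p ψ) (i : Fin 3) (h0 : ((ψ i : ℤ) : ZMod p) = 0) :
    ψ i = 0 := by
  by_contra hne
  rw [ZMod.intCast_zmod_eq_zero_iff_dvd] at h0
  obtain ⟨k, hk⟩ := h0
  have hk0 : k ≠ 0 := by
    rintro rfl
    exact hne (by rw [hk, mul_zero])
  have h1 := h.2 i
  rw [hk] at h1
  have hk1 : 1 ≤ k ^ 2 := by
    have : 0 < k ^ 2 := by positivity
    omega
  have hp1 : (1 : ℤ) ≤ p := by exact_mod_cast hp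
  nlinarith [mul_nonneg (sq_nonneg (p : ℤ)) (by linarith : (0 : ℤ) ≤ k ^ 2 - 1)]

theorem PHI_coef (p : ℕ) [Fact p.Prime] (ψ : V3) (b c : ZMod p) (hbc : b ≠ c) (hb : va p ψ b)
    (hc : va p ψ c) :
    ((ψ 1 : ℤ) : ZMod p) = -((ψ 0 : ℤ) : ZMod p) * (b + c) ∧
      ((ψ 2 : ℤ) : ZMod p) = ((ψ 0 : ℤ) : ZMod p) * (b * c) := by
  unfold va at hb hc
  have h1 : (b - c) * (((ψ 0 : ℤ) : ZMod p) * (b + c) + ((ψ 1 : ℤ) : ZMod p)) = 0 := by
    linear_combination hb - hc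
  have h2 : ((ψ 0 : ℤ) : ZMod p) * (b + c) + ((ψ 1 : ℤ) : ZMod p) = 0 := by
    rcases mul_eq_zero.1 h1 with h | h
    · exact absurd (sub_eq_zero.1 h) hbc
    · exact h
  refine ⟨by linear_combination h2, ?_⟩
  linear_combination hb - b * h2

/-- the coefficients relative to the leading one -/
def PHI_v (p : ℕ) (b c : ZMod p) : Fin 3 → ZMod p := ![1, -(b + c), b * c]

theorem PHI_form (p : ℕ) [Fact p.Prime] (ψ : V3) (b c : ZMod p) (hbc : b ≠ c) (hb : va p ψ b)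
    (hc : va p ψ c) (i : Fin 3) : ((ψ i : ℤ) : ZMod p) = ((ψ 0 : ℤ) : ZMod p) * PHI_v p b c i := by
  have h := PHI_coef p ψ b c hbc hb hc
  fin_cases i
  · show ((ψ 0 : ℤ) : ZMod p) = ((ψ 0 : ℤ) : ZMod p) * 1
    ring
  · show ((ψ 1 : ℤ) : ZMod p) = ((ψ 0 : ℤ) : ZMod p) * -(b + c)
    rw [h.1]; ring
  · show ((ψ 2 : ℤ) : ZMod p) = ((ψ 0 : ℤ) : ZMod p) * (b * c)
    rw [h.2]

theorem PHI_lead (p : ℕ) [Fact p.Prime] (ψ : V3) (b c : ZMod p) (hbc : b ≠ c) (hb : va p ψ b)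
    (hc : va p ψ c) (hs : smf p ψ) : ((ψ 0 : ℤ) : ZMod p) ≠ 0 := by
  intro h0
  apply hs.1
  funext i
  refine PHI_small p (Fact.out : p.Prime).pos ψ hs i ?_
  rw [PHI_form p ψ b c hbc hb hc i, h0, zero_mul]

theorem PHI_par (p : ℕ) [Fact p.Prime] (ψ φ : V3) (b c : ZMod p) (hbc : b ≠ c) (hb : va p ψ b)
    (hc : va p ψ c) (hb' : va p φ b) (hc' : va p φ c) (hs : smf p ψ) (hs' : smf p φ) : par ψ φ := by
  intro i j
  have h1 : (((ψ i * φ j - ψ j * φ i : ℤ)) : ZMod p) = 0 := by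
    push_cast
    rw [PHI_form p ψ b c hbc hb hc i, PHI_form p ψ b c hbc hb hc j,
      PHI_form p φ b c hbc hb' hc' i, PHI_form p φ b c hbc hb' hc' j]
    ring
  rw [ZMod.intCast_zmod_eq_zero_iff_dvd] at h1
  have hp : (0 : ℤ) < p := by exact_mod_cast (Fact.out : p.Prime).pos
  have key : ∀ k l : Fin 3, |ψ k * φ l| * 2 < p := by
    intro k l
    have h2 := hs.2 k
    have h3 := hs'.2 l
    have h4 : (|ψ k * φ l| * 2) ^ 2 < (p : ℤ) ^ 2 := by
      have e : (|ψ k * φ l| * 2) ^ 2 = 4 * (ψ k ^ 2 * φ l ^ 2) := by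
        rw [mul_pow, sq_abs]; ring
      rw [e]
      have h5 : 0 ≤ ψ k ^ 2 := sq_nonneg _
      have h6 : 0 ≤ φ l ^ 2 := sq_nonneg _
      nlinarith
    exact lt_of_pow_lt_pow_left₀ 2 hp.le h4
  have h2 := key i j
  have h3 := key j i
  have h4 : |ψ i * φ j - ψ j * φ i| < p := by
    have := abs_sub (ψ i * φ j) (ψ j * φ i)
    omega
  have h5 := Int.eq_zero_of_abs_lt_dvd h1 h4
  omega

theorem PHI : PHI_stmt := by
  intro p _ x hx
  refine ⟨?_, ?_, ?_⟩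
  · intro ψ hs h1 h2
    have hex : ∃ ψ : V3, smf p ψ ∧ va p ψ x.1 ∧ va p ψ x.2 := ⟨ψ, hs, h1, h2⟩
    have hP : Phi p x = Classical.choose hex := by
      unfold Phi
      rw [dif_pos hex]
    have hsp := Classical.choose_spec hex
    rw [hP]
    exact ⟨hsp.1.1, PHI_par p ψ _ x.1 x.2 hx h1 h2 hsp.2.1 hsp.2.2 hs hsp.1⟩
  · intro hne hds
    obtain ⟨hs, h1, h2⟩ := PHI_spec p x hne
    have hl := PHI_lead p _ x.1 x.2 hx h1 h2 hs
    obtain ⟨c1, c2⟩ := PHI_coef p _ x.1 x.2 hx h1 h2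
    have h3 : ((ds (Phi p x) : ℤ) : ZMod p) = 0 := by rw [hds]; simp
    unfold ds at h3
    push_cast at h3
    rw [c1, c2] at h3
    have h4 : (((Phi p x 0 : ℤ) : ZMod p) * (x.1 - x.2)) ^ 2 = 0 := by
      linear_combination h3
    rcases mul_eq_zero.1 (pow_eq_zero_iff (two_ne_zero) |>.1 h4) with h | h
    · exact hl h
    · exact hx (sub_eq_zero.1 h)
  · intro hne T hT
    obtain ⟨hs, h1, h2⟩ := PHI_spec p x hne
    have hl := PHI_lead p _ x.1 x.2 hx h1 h2 hs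
    have hsub : T ⊆ {(x.1, x.2), (x.2, x.1)} := by
      intro y hy
      obtain ⟨hy1, hy2, hy3⟩ := hT y hy
      obtain ⟨hs', h1', h2'⟩ := PHI_spec p y hy2
      have hl' := PHI_lead p _ y.1 y.2 hy1 h1' h2' hs'
      obtain ⟨c1, c2⟩ := PHI_coef p _ x.1 x.2 hx h1 h2
      obtain ⟨c1', c2'⟩ := PHI_coef p _ y.1 y.2 hy1 h1' h2'
      have e1 : (((Phi p x 0 * Phi p y 1 : ℤ)) : ZMod p) = ((Phi p x 1 * Phi p y 0 : ℤ) : ZMod p) := by
        rw [hy3 0 1]
      have e2 : (((Phi p x 0 * Phi p y 2 : ℤ)) : ZMod p) = ((Phi p x 2 * Phi p y 0 : ℤ) : ZMod p) := by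
        rw [hy3 0 2]
      push_cast at e1 e2
      rw [c1, c1'] at e1
      rw [c2, c2'] at e2
      have hm : ((Phi p x 0 : ℤ) : ZMod p) * ((Phi p y 0 : ℤ) : ZMod p) ≠ 0 := mul_ne_zero hl hl'
      have s1 : y.1 + y.2 = x.1 + x.2 := by
        have : ((Phi p x 0 : ℤ) : ZMod p) * ((Phi p y 0 : ℤ) : ZMod p) * (y.1 + y.2 - (x.1 + x.2)) = 0 := by
          linear_combination -e1
        rcases mul_eq_zero.1 this with h | h
        · exact absurd h hm
        · exact sub_eq_zero.1 h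
      have s2 : y.1 * y.2 = x.1 * x.2 := by
        have : ((Phi p x 0 : ℤ) : ZMod p) * ((Phi p y 0 : ℤ) : ZMod p) * (y.1 * y.2 - (x.1 * x.2)) = 0 := by
          linear_combination e2
        rcases mul_eq_zero.1 this with h | h
        · exact absurd h hm
        · exact sub_eq_zero.1 h
      have s3 : (y.1 - x.1) * (y.1 - x.2) = 0 := by
        linear_combination y.1 * s1 - s2
      rw [Finset.mem_insert, Finset.mem_singleton]
      rcases mul_eq_zero.1 s3 with h | h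
      · left
        have h5 : y.1 = x.1 := sub_eq_zero.1 h
        have h6 : y.2 = x.2 := by linear_combination s1 - h5
        exact Prod.ext h5 h6
      · right
        have h5 : y.1 = x.2 := sub_eq_zero.1 h
        have h6 : y.2 = x.1 := by linear_combination s1 - h5
        exact Prod.ext h5 h6
    exact (Finset.card_le_card hsub).trans Finset.card_le_two

end Pool.Agent.helper68.FY
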